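import Pool.Agent.V1127.CvFin

set_option autoImplicit false

/-!
There is no finite `CV₂`-rigid set of primitive elements of the free group of rank two.
-/

namespace Pool.Agent.Results.MP_9fd1ce_al.NoFiniteRigidPrimitives

open Pool.Agent.H472R3 Pool.Agent.H67R4.SR Pool.Agent.V1127.Cv

/-- `A` is a point of `CV₂`: a free, minimal action with discrete orbits on an R-tree, whose
quotient metric graph has edge lengths which sum to `1`. -/
def InCV2 (A : FTree 2) : Prop := A.InCV ∧ HasCovolume A 1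

/-- `S` is `CV₂`-rigid. -/
def CVRigid (S : Set (FreeGroup (Fin 2))) : Prop :=
  ∀ A B : FTree 2, InCV2 A → InCV2 B → (∀ g ∈ S, A.len g = B.len g) → A.Same B

theorem result :
    (¬ ∃ S : Set (FreeGroup (Fin 2)), S.Finite ∧ (∀ s ∈ S, Primitive s) ∧ CVRigid S) ∧
    (∀ S : Set (FreeGroup (Fin 2)), S.Finite → (∀ s ∈ S, Primitive s) →
      ∃ A B : FTree 2, InCV2 A ∧ InCV2 B ∧ (∀ s ∈ S, A.len s = B.len s) ∧
        ∃ g : FreeGroup (Fin 2), Primitive g ∧ A.len g ≠ B.len g) := by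
  constructor
  · rintro ⟨S, hfin, hS, hrig⟩
    obtain ⟨A, B, h1, h2, h3, h4, h5, h6, _⟩ := no_finite S hfin hS
    exact h6 (hrig A B ⟨h1, h3⟩ ⟨h2, h4⟩ h5)
  · intro S hfin hS
    obtain ⟨A, B, h1, h2, h3, h4, h5, _, h7⟩ := no_finite S hfin hS
    exact ⟨A, B, ⟨h1, h3⟩, ⟨h2, h4⟩, h5, h7⟩

end Pool.Agent.Results.MP_9fd1ce_al.NoFiniteRigidPrimitives
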